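import Pool.Agent.H18.PB.Defs

/-!
# Separated good times in a window (row TIMES of M5)

If `k` digits of the time are almost uniform given the line and the window, then almost every
window contains `n` good samples at separated times.
-/

set_option autoImplicit false

namespace Pool.Agent.H39.SLO

open Finset Real
open Pool.Agent.H49.Ent Pool.Agent.H32.Dense Pool.STK Pool.KA Pool.KSAT Pool.K2S

/-- A set of at least `2 n - 1` integers contains `n` integers at distances at least `2`. -/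
lemma exists_sep {n : ℕ} (S : Finset ℕ) (h : 2 * n - 1 ≤ S.card) :
    ∃ f : Fin n → ℕ, (∀ i, f i ∈ S) ∧ ∀ i j, i < j → f i + 2 ≤ f j := by
  have hlt : ∀ i : Fin n, 2 * (i : ℕ) < S.card := fun i => by
    have := i.2
    omega
  refine ⟨fun i => S.orderEmbOfFin rfl ⟨2 * i, hlt i⟩, fun i => Finset.orderEmbOfFin_mem _ _ _,
    fun i j hij => ?_⟩
  have h1 : ∀ a b : Fin S.card, a < b → S.orderEmbOfFin rfl a + 1 ≤ S.orderEmbOfFin rfl b :=
    fun a b hab => (S.orderEmbOfFin rfl).strictMono hab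
  rw [Fin.lt_def] at hij
  have hm : 2 * (i : ℕ) + 1 < S.card := by
    have := hlt j
    omega
  have h2 := h1 ⟨2 * i, hlt i⟩ ⟨2 * i + 1, hm⟩ (by rw [Fin.lt_def]; simp)
  have h3 := h1 ⟨2 * i + 1, hm⟩ ⟨2 * j, hlt j⟩ (by rw [Fin.lt_def]; simp only; omega)
  show S.orderEmbOfFin rfl ⟨2 * i, hlt i⟩ + 2 ≤ S.orderEmbOfFin rfl ⟨2 * j, hlt j⟩
  omega

lemma log_half {x : ℝ} (hx : 0 < x) : Real.log (1 / 2 * (1 / x)) = -(Real.log 2 + Real.log x) := by
  have e : 1 / 2 * (1 / x) = (2 * x)⁻¹ := by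
    field_simp
  rw [e, Real.log_inv, Real.log_mul (by norm_num) hx.ne']

open Classical in
/-- **Separated good times.** -/
theorem tms {Ω L : Type} [Fintype Ω] {p : Ω → ℝ} (hp : IsLaw p) (ℓ : Ω → L) (d : Ω → ℕ)
    (E : Ω → Prop) {n k : ℕ} (hn : 1 ≤ n) {e : ℝ} (he : 0 ≤ e)
    (hd : ∀ ω ω', 0 < p ω → 0 < p ω' → ℓ ω = ℓ ω' → d ω / 2 ^ k = d ω' / 2 ^ k)
    (hH : k * Real.log 2 - e ≤ CH p d ℓ) :
    Pe p (fun ω => ¬ ∃ v : Fin n → Ω, (∀ i, E (v i) ∧ 0 < p (v i) ∧ ℓ (v i) = ℓ ω) ∧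
      ∀ i j, i < j → d (v i) + 2 ≤ d (v j)) * (k * Real.log 2 - Real.log 2 - Real.log (2 * n)) ≤
      e + Pe p (fun ω => ¬ E ω) * (k * Real.log 2) := by
  have hp0 := hp.nonneg
  obtain ⟨ω₀, hω₀⟩ : ∃ ω : Ω, 0 < p ω := by
    by_contra hcon
    push Not at hcon
    have h1 := hp.sum_one
    have h2 : ∑ ω, p ω ≤ 0 := Finset.sum_nonpos fun ω _ => hcon ω
    linarith
  obtain ⟨c, hc⟩ : ∃ f : L → ℕ, ∀ ω, 0 < p ω → f (ℓ ω) = d ω / 2 ^ k := by
    refine ⟨fun x => if hx : ∃ ω, 0 < p ω ∧ ℓ ω = x then d hx.choose / 2 ^ k else 0, ?_⟩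
    intro ω hω
    have hx : ∃ ω', 0 < p ω' ∧ ℓ ω' = ℓ ω := ⟨ω, hω, rfl⟩
    dsimp only
    rw [dif_pos hx]
    exact hd _ _ hx.choose_spec.1 hω hx.choose_spec.2
  set D : L → Finset ℕ := fun x => (univ.filter fun ω => 0 < p ω ∧ ℓ ω = x ∧ E ω).image d with hD
  set Bad : L → Prop := fun x => (D x).card < 2 * n - 1 with hBad
  have hn0 : (0 : ℝ) < n := by exact_mod_cast hn
  have h2n : (0 : ℝ) < 2 * n := by positivity
  have h2k : (0 : ℝ) < 2 ^ k := by positivity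
  -- the events
  have hsub : ∀ ω, 0 < p ω → (¬ ∃ v : Fin n → Ω, (∀ i, E (v i) ∧ 0 < p (v i) ∧ ℓ (v i) = ℓ ω) ∧
      ∀ i j, i < j → d (v i) + 2 ≤ d (v j)) → Bad (ℓ ω) := by
    intro ω hω hnot
    by_contra hcon
    simp only [hBad, not_lt] at hcon
    obtain ⟨f, hf1, hf2⟩ := exists_sep (D (ℓ ω)) hcon
    have hf3 : ∀ i, ∃ ω', (0 < p ω' ∧ ℓ ω' = ℓ ω ∧ E ω') ∧ d ω' = f i := by
      intro i
      have := hf1 i
      simp only [hD, Finset.mem_image, Finset.mem_filter, Finset.mem_univ, true_and] at this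
      exact this
    choose v hv1 hv2 using hf3
    refine hnot ⟨v, fun i => ⟨(hv1 i).2.2, (hv1 i).1, (hv1 i).2.1⟩, fun i j hij => ?_⟩
    rw [hv2, hv2]
    exact hf2 i j hij
  set q : L → ℕ → ℝ := fun x y => if Bad x then
      (1 / 2) * (if y ∈ D x then (1 : ℝ) / (2 * n) else 0) +
        (1 / 2) * (if y / 2 ^ k = c x then 1 / 2 ^ k else 0)
    else (if y / 2 ^ k = c x then 1 / 2 ^ k else 0) with hq
  have hq1 : ∀ ω, 0 < p ω → 0 < q (ℓ ω) (d ω) := by
    intro ω hω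
    have e1 : d ω / 2 ^ k = c (ℓ ω) := (hc ω hω).symm
    simp only [hq]
    by_cases hb : Bad (ℓ ω)
    · rw [if_pos hb, if_pos e1]
      by_cases hy : d ω ∈ D (ℓ ω)
      · rw [if_pos hy]
        positivity
      · rw [if_neg hy]
        positivity
    · rw [if_neg hb, if_pos e1]
      positivity
  have hq0 : ∀ x y, 0 ≤ q x y := by
    intro x y
    simp only [hq]
    split_ifs <;> positivity
  have hcount : ∀ (x : L) (F : Finset ℕ), ∑ y ∈ F, (if y / 2 ^ k = c x then (1 : ℝ) / 2 ^ k else 0) ≤ 1 := by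
    intro x F
    rw [← Finset.sum_filter, Finset.sum_const, nsmul_eq_mul, mul_one_div, div_le_one h2k]
    have h1 : (F.filter fun y => y / 2 ^ k = c x) ⊆ Finset.Ico (c x * 2 ^ k) ((c x + 1) * 2 ^ k) := by
      intro y hy
      rw [Finset.mem_filter] at hy
      have hpos : 0 < 2 ^ k := by positivity
      rw [Finset.mem_Ico, ← hy.2]
      refine ⟨Nat.div_mul_le_self _ _, ?_⟩
      rw [mul_comm]
      exact Nat.lt_mul_div_succ y hpos
    have h2 := Finset.card_le_card h1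
    rw [Nat.card_Ico] at h2
    have h3 : (c x + 1) * 2 ^ k - c x * 2 ^ k = 2 ^ k := by
      rw [Nat.add_mul, one_mul, Nat.add_sub_cancel_left]
    rw [h3] at h2
    exact_mod_cast h2
  have hsum : ∀ ω, 0 < p ω → ∀ F : Finset ℕ, ∑ y ∈ F, q (ℓ ω) y ≤ 1 := by
    intro ω hω F
    simp only [hq]
    by_cases hb : Bad (ℓ ω)
    · simp only [if_pos hb]
      rw [Finset.sum_add_distrib, ← Finset.mul_sum, ← Finset.mul_sum]
      have h1 := hcount (ℓ ω) F
      have h2 : ∑ y ∈ F, (if y ∈ D (ℓ ω) then (1 : ℝ) / (2 * n) else 0) ≤ 1 := by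
        rw [← Finset.sum_filter, Finset.sum_const, nsmul_eq_mul, mul_one_div, div_le_one h2n]
        have h3 : (F.filter fun y => y ∈ D (ℓ ω)).card ≤ (D (ℓ ω)).card :=
          Finset.card_le_card fun y hy => (Finset.mem_filter.mp hy).2
        have h4 : (D (ℓ ω)).card < 2 * n - 1 := hb
        have h5 : (F.filter fun y => y ∈ D (ℓ ω)).card ≤ 2 * n := by omega
        exact_mod_cast h5
      linarith
    · simp only [if_neg hb]
      exact hcount (ℓ ω) F
  have hcross := CH_le_cross hp0 hp.sum_one d ℓ q hq1 hq0 hsum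
  -- the bound
  set lg2 := Real.log 2 with hlg2
  have hlog : 0 < lg2 := Real.log_pos (by norm_num)
  have hlogn : 0 ≤ Real.log (2 * n) := by
    refine Real.log_nonneg ?_
    have : (1 : ℝ) ≤ n := by exact_mod_cast hn
    linarith
  have hpt : ∀ ω, 0 < p ω → -Real.log (q (ℓ ω) (d ω)) ≤ k * lg2 +
      ((if Bad (ℓ ω) then (lg2 + Real.log (2 * n) - k * lg2) else 0) +
        (if ¬ E ω then k * lg2 else 0)) := by
    intro ω hω
    have e1 : d ω / 2 ^ k = c (ℓ ω) := (hc ω hω).symm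
    have hk0 : 0 ≤ k * lg2 := by positivity
    simp only [hq]
    by_cases hb : Bad (ℓ ω)
    · rw [if_pos hb, if_pos hb, if_pos e1]
      by_cases hE : E ω
      · have hy : d ω ∈ D (ℓ ω) := by
          simp only [hD, Finset.mem_image, Finset.mem_filter, Finset.mem_univ, true_and]
          exact ⟨ω, ⟨hω, rfl, hE⟩, rfl⟩
        rw [if_pos hy, if_neg (not_not.mpr hE)]
        have h1 : 1 / 2 * (1 / (2 * (n : ℝ))) ≤ 1 / 2 * (1 / (2 * n)) + 1 / 2 * (1 / 2 ^ k) := by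
          have : (0 : ℝ) ≤ 1 / 2 * (1 / 2 ^ k) := by positivity
          linarith
        have h2 := Real.log_le_log (by positivity) h1
        have h3 : Real.log (1 / 2 * (1 / (2 * (n : ℝ)))) = -(lg2 + Real.log (2 * n)) := by
          exact log_half (by positivity)
        rw [h3] at h2
        linarith
      · rw [if_pos hE]
        have h1 : 1 / 2 * (1 / 2 ^ k) ≤ 1 / 2 * (if d ω ∈ D (ℓ ω) then 1 / (2 * (n : ℝ)) else 0) +
            1 / 2 * (1 / 2 ^ k) := by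
          have : (0 : ℝ) ≤ 1 / 2 * (if d ω ∈ D (ℓ ω) then 1 / (2 * (n : ℝ)) else 0) := by
            split_ifs <;> positivity
          linarith
        have h2 := Real.log_le_log (by positivity) h1
        have h3 : Real.log (1 / 2 * (1 / (2 : ℝ) ^ k)) = -(lg2 + k * lg2) := by
          rw [log_half (by positivity), Real.log_pow]
        rw [h3] at h2
        linarith
    · rw [if_neg hb, if_neg hb, if_pos e1]
      have h3 : Real.log (1 / (2 : ℝ) ^ k) = -(k * lg2) := by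
        rw [Real.log_div (by norm_num) (by positivity), Real.log_one, zero_sub, Real.log_pow]
      rw [h3]
      have : 0 ≤ (if ¬ E ω then k * lg2 else 0) := by
        by_cases hE : ¬ E ω
        · rw [if_pos hE]
          exact hk0
        · rw [if_neg hE]
      linarith
  have hEx := Ex_mono hp0 hpt
  have hPB : Pe p (fun ω => ¬ ∃ v : Fin n → Ω, (∀ i, E (v i) ∧ 0 < p (v i) ∧ ℓ (v i) = ℓ ω) ∧
      ∀ i j, i < j → d (v i) + 2 ≤ d (v j)) ≤ Pe p (fun ω => Bad (ℓ ω)) := by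
    rw [Pe_eq, Pe_eq]
    refine Finset.sum_le_sum fun ω _ => ?_
    rcases (hp0 ω).eq_or_lt with h0 | h0
    · rw [← h0]
      simp
    · by_cases h1 : ¬ ∃ v : Fin n → Ω, (∀ i, E (v i) ∧ 0 < p (v i) ∧ ℓ (v i) = ℓ ω) ∧
          ∀ i j, i < j → d (v i) + 2 ≤ d (v j)
      · rw [if_pos h1, if_pos (hsub ω h0 h1)]
      · rw [if_neg h1]
        split_ifs
        exacts [h0.le, le_rfl]
  have hsumEx : Ex p (fun ω => k * lg2 +
      ((if Bad (ℓ ω) then (lg2 + Real.log (2 * n) - k * lg2) else 0) +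
        (if ¬ E ω then k * lg2 else 0))) = k * lg2 +
      (Pe p (fun ω => Bad (ℓ ω)) * (lg2 + Real.log (2 * n) - k * lg2) +
        Pe p (fun ω => ¬ E ω) * (k * lg2)) := by
    rw [Ex_add, Ex_add, Ex_const hp.sum_one, Pe_eq, Pe_eq, Finset.sum_mul, Finset.sum_mul]
    have e1 : Ex p (fun ω => if Bad (ℓ ω) then (lg2 + Real.log (2 * n) - k * lg2) else 0) =
        ∑ ω, (if Bad (ℓ ω) then p ω else 0) * (lg2 + Real.log (2 * n) - k * lg2) := by
      unfold Ex
      refine Finset.sum_congr rfl fun ω _ => ?_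
      dsimp only
      by_cases h : Bad (ℓ ω)
      · rw [if_pos h, if_pos h]
      · rw [if_neg h, if_neg h, mul_zero, zero_mul]
    have e2 : Ex p (fun ω => if ¬ E ω then k * lg2 else 0) =
        ∑ ω, (if ¬ E ω then p ω else 0) * (k * lg2) := by
      unfold Ex
      refine Finset.sum_congr rfl fun ω _ => ?_
      dsimp only
      by_cases h : ¬ E ω
      · rw [if_pos h, if_pos h]
      · rw [if_neg h, if_neg h, mul_zero, zero_mul]
    rw [e1, e2]
    congr!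
  rw [hsumEx] at hEx
  have hmain : Pe p (fun ω => Bad (ℓ ω)) * (k * lg2 - lg2 - Real.log (2 * n)) ≤
      e + Pe p (fun ω => ¬ E ω) * (k * lg2) := by
    have e1 : Pe p (fun ω => Bad (ℓ ω)) * (k * lg2 - lg2 - Real.log (2 * n)) =
        -(Pe p (fun ω => Bad (ℓ ω)) * (lg2 + Real.log (2 * n) - k * lg2)) := by ring
    rw [e1]
    linarith
  rcases le_total 0 (k * lg2 - lg2 - Real.log (2 * n)) with h0 | h0
  · exact (mul_le_mul_of_nonneg_right hPB h0).trans hmain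
  · have h1 : Pe p (fun ω => ¬ ∃ v : Fin n → Ω, (∀ i, E (v i) ∧ 0 < p (v i) ∧ ℓ (v i) = ℓ ω) ∧
      ∀ i j, i < j → d (v i) + 2 ≤ d (v j)) * (k * lg2 - lg2 - Real.log (2 * n)) ≤ 0 :=
      mul_nonpos_of_nonneg_of_nonpos (Pe_nonneg hp _) h0
    have h2 : 0 ≤ Pe p (fun ω => ¬ E ω) * (k * lg2) :=
      mul_nonneg (Pe_nonneg hp _) (by positivity)
    linarith

/-- **Separated good times**, the simplest form. -/
theorem tms' {Ω L : Type} [Fintype Ω] {p : Ω → ℝ} (hp : IsLaw p) (ℓ : Ω → L) (d : Ω → ℕ)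
    (E : Ω → Prop) {n k : ℕ} (hn : 1 ≤ n) {e : ℝ} (he : 0 ≤ e)
    (hd : ∀ ω ω', 0 < p ω → 0 < p ω' → ℓ ω = ℓ ω' → d ω / 2 ^ k = d ω' / 2 ^ k)
    (hH : k * Real.log 2 - e ≤ CH p d ℓ) (hk : (4 * n) ^ 2 ≤ 2 ^ k) :
    Pe p (fun ω => ¬ ∃ v : Fin n → Ω, (∀ i, E (v i) ∧ 0 < p (v i) ∧ ℓ (v i) = ℓ ω) ∧
      ∀ i j, i < j → d (v i) + 2 ≤ d (v j)) ≤
      2 * Pe p (fun ω => ¬ E ω) + 2 * e / (k * Real.log 2) := by
  have h1 := tms hp ℓ d E hn he hd hH
  set x := Pe p (fun ω => ¬ ∃ v : Fin n → Ω, (∀ i, E (v i) ∧ 0 < p (v i) ∧ ℓ (v i) = ℓ ω) ∧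
      ∀ i j, i < j → d (v i) + 2 ≤ d (v j)) with hx
  have hx0 : 0 ≤ x := Pe_nonneg hp _
  have hlog : 0 < Real.log 2 := Real.log_pos (by norm_num)
  have hn0 : (1 : ℝ) ≤ n := by exact_mod_cast hn
  have h2 : 2 * (Real.log 2 + Real.log (2 * n)) ≤ k * Real.log 2 := by
    have h3 : ((4 * n : ℝ)) ^ 2 ≤ 2 ^ k := by exact_mod_cast hk
    have h4 := Real.log_le_log (by positivity) h3
    rw [Real.log_pow, Real.log_pow] at h4
    have h5 : Real.log (4 * n) = Real.log 2 + Real.log (2 * n) := by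
      rw [← Real.log_mul (by norm_num) (by positivity)]
      congr 1
      ring
    rw [h5] at h4
    push_cast at h4
    exact h4
  have hk0 : 0 < k * Real.log 2 := by
    have h5 : 0 ≤ Real.log (2 * n) := Real.log_nonneg (by linarith)
    linarith
  have h3 : x * (k * Real.log 2 / 2) ≤ x * (k * Real.log 2 - Real.log 2 - Real.log (2 * n)) :=
    mul_le_mul_of_nonneg_left (by linarith) hx0
  have h4 : x * (k * Real.log 2) ≤ (2 * Pe p (fun ω => ¬ E ω) + 2 * e / (k * Real.log 2)) *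
      (k * Real.log 2) := by
    rw [add_mul, div_mul_cancel₀ _ hk0.ne']
    linarith
  exact le_of_mul_le_mul_right h4 hk0

variable {m J : ℕ}

/-- Two times with distant digits. -/
lemma t_sep (F : Fam m J) {g : ℕ} (hg : g ≤ J) {ω ω' : F.Ω} (h : F.T1 g ω + 2 ≤ F.T1 g ω') :
    1 / 2 ^ g ≤ F.t ω' - F.t ω := by
  have hpos : 0 < 2 ^ (J - g) := by positivity
  have h1 : F.T ω < 2 ^ (J - g) * (F.T1 g ω + 1) := Nat.lt_mul_div_succ _ hpos
  have h2 : 2 ^ (J - g) * F.T1 g ω' ≤ F.T ω' := Nat.mul_div_le _ _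
  have h3 : F.T ω + 2 ^ (J - g) ≤ F.T ω' := by
    have h4 : 2 ^ (J - g) * (F.T1 g ω + 2) ≤ 2 ^ (J - g) * F.T1 g ω' := Nat.mul_le_mul_left _ h
    have h5 : 2 ^ (J - g) * (F.T1 g ω + 2) = 2 ^ (J - g) * (F.T1 g ω + 1) + 2 ^ (J - g) := by ring
    omega
  have h4 : (F.T ω : ℝ) + 2 ^ (J - g) ≤ F.T ω' := by exact_mod_cast h3
  unfold Fam.t
  rw [← sub_div, le_div_iff₀ (by positivity)]
  have h5 : (2 : ℝ) ^ J = 2 ^ g * 2 ^ (J - g) := by
    rw [← pow_add, Nat.add_sub_cancel' hg]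
  rw [h5]
  have h6 : (1 : ℝ) / 2 ^ g * (2 ^ g * 2 ^ (J - g)) = 2 ^ (J - g) := by field_simp
  rw [h6]
  linarith

/-- **Row TIMES.** If `k` digits of the time after the window of length `2 ^ (-w)` are almost
uniform given the line and the window, then the window of a typical sample contains `n` samples of
the same line, all in `E`, at mutual distances at least `2 ^ (-(w + k))`. -/
theorem tms_fam (F : Fam m J) {q : F.Ω → ℝ} (hq : IsLaw q) (E : F.Ω → Prop) {n k w : ℕ}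
    (hn : 1 ≤ n) (hw : w + k ≤ J) {e : ℝ} (he : 0 ≤ e)
    (hH : k * Real.log 2 - e ≤ CH q (F.T1 (w + k)) (slam F w)) (hk : (4 * n) ^ 2 ≤ 2 ^ k) :
    Pe q (fun ω => ¬ ∃ v : Fin n → F.Ω, (∀ i, E (v i) ∧ 0 < q (v i) ∧ slam F w (v i) = slam F w ω) ∧
      ∀ i j, i ≠ j → 1 / 2 ^ (w + k) ≤ |F.t (v i) - F.t (v j)|) ≤
      2 * Pe q (fun ω => ¬ E ω) + 2 * e / (k * Real.log 2) := by
  classical
  have h1 := tms' hq (slam F w) (F.T1 (w + k)) E hn he (by
    intro ω ω' _ _ h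
    have h2 : ∀ ω, F.T1 (w + k) ω / 2 ^ k = F.T1 w ω := by
      intro ω
      unfold Fam.T1
      rw [Nat.div_div_eq_div_mul, ← pow_add]
      congr 2
      omega
    rw [h2, h2]
    exact (Prod.ext_iff.mp (Prod.ext_iff.mp h).2).2) hH hk
  refine le_trans (Pe_mono hq ?_) h1
  intro ω hnot hex
  obtain ⟨v, hv1, hv2⟩ := hex
  refine hnot ⟨v, hv1, fun i j hij => ?_⟩
  rcases lt_or_gt_of_ne hij with h | h
  · have h3 := t_sep F hw (hv2 i j h)
    rw [abs_sub_comm]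
    exact h3.trans (le_abs_self _)
  · have h3 := t_sep F hw (hv2 j i h)
    exact h3.trans (le_abs_self _)

end Pool.Agent.H39.SLO
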