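import Pool.Agent.H71.SLP.Stmts
import Pool.Agent.H39.SLO.Tms
import Pool.Agent.H25.M5.H1F
import Pool.Agent.H48.M5.Lag

/-!
# Row LIN of the slope law: the numbers of most lines are bounded

The line polynomial is small at the samples of the line; a typical window contains `K + 1` samples
at separated times.
-/

set_option autoImplicit false

namespace Pool.Agent.H39.SLO

open Finset Real MvPolynomial
open Pool.Agent.H49.Ent Pool.Agent.H32.Dense Pool.STK Pool.KA Pool.KSAT Pool.K2S Pool.PB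
open Pool.SLF

variable {k J : ℕ}

/-- Rounding changes the values at points of size `2` by at most `#mons 2 ^ K / 2 ^ P`. -/
theorem abs_rdp_le2 {m K P : ℕ} {G : MvPolynomial (Fin m) ℝ} (hG : G.totalDegree ≤ K)
    {b : Fin m → ℝ} (hb : ∀ i, |b i| ≤ 2) :
    |eval b G - eval b (Pool.SLO.rdp K P G)| ≤ (Pool.SLO.mons m K).card * 2 ^ K / 2 ^ P := by
  classical
  have hP : (0 : ℝ) < 2 ^ P := by positivity
  unfold Pool.SLO.rdp
  rw [Pool.SLO.eval_of_degree hG, Pool.SLO.eval_rdz, ← Finset.sum_sub_distrib]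
  refine (Finset.abs_sum_le_sum_abs _ _).trans ?_
  have h : ∀ s ∈ Pool.SLO.mons m K, |coeff s G * ∏ i, b i ^ s i -
      (Pool.SLO.hz P G s : ℝ) / 2 ^ P * ∏ i, b i ^ s i| ≤ 2 ^ K / 2 ^ P := by
    intro s hs
    rw [← sub_mul, abs_mul]
    have h1 : |coeff s G - (Pool.SLO.hz P G s : ℝ) / 2 ^ P| ≤ 1 / 2 ^ P := by
      have a1 := Int.floor_le ((2 : ℝ) ^ P * coeff s G)
      have a2 := Int.lt_floor_add_one ((2 : ℝ) ^ P * coeff s G)
      have e : coeff s G - (Pool.SLO.hz P G s : ℝ) / 2 ^ P =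
          (2 ^ P * coeff s G - (Pool.SLO.hz P G s : ℝ)) / 2 ^ P := by
        field_simp
      rw [e, abs_div, abs_of_pos hP]
      refine div_le_div_of_nonneg_right ?_ hP.le
      unfold Pool.SLO.hz
      rw [abs_le]
      constructor <;> linarith
    have h2 : |∏ i, b i ^ s i| ≤ 2 ^ K := by
      rw [Finset.abs_prod]
      calc ∏ i, |b i ^ s i| ≤ ∏ i, (2 : ℝ) ^ s i := by
            refine Finset.prod_le_prod (fun i _ => abs_nonneg _) fun i _ => ?_
            rw [abs_pow]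
            exact pow_le_pow_left₀ (abs_nonneg _) (hb i) _
        _ = 2 ^ ∑ i, s i := by rw [Finset.prod_pow_eq_pow_sum]
        _ ≤ 2 ^ K := by
            refine pow_le_pow_right₀ (by norm_num) ?_
            have h3 := Pool.SLO.mem_mons.1 hs
            rwa [Finsupp.sum_fintype _ _ fun _ => rfl] at h3
    calc _ ≤ 1 / 2 ^ P * 2 ^ K := mul_le_mul h1 h2 (abs_nonneg _) (by positivity)
      _ = 2 ^ K / 2 ^ P := by ring
  refine (Finset.sum_le_sum h).trans (le_of_eq ?_)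
  rw [Finset.sum_const, nsmul_eq_mul]
  ring

/-- The constant of the small values. -/
noncomputable def Cl (k K : ℕ) : ℝ := 2 + (Pool.SLO.mons (k + 1) K).card * 2 ^ K

theorem Cl_pos (k K : ℕ) : 0 < Cl k K := by
  unfold Cl
  positivity

/-- The time in the window. -/
theorem tw_mem (F : Fam (k + 1) J) {v : ℕ} (hv : v ≤ J) (ω : F.Ω) :
    0 ≤ F.tw v ω ∧ F.tw v ω ≤ 1 := by
  have t01 := T1_real F hv ω
  unfold Fam.tw
  constructor <;> linarith only [t01, t01.1, t01.2]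

/-- **The line polynomial is small at the samples.** -/
theorem lp_small {F : Fam (k + 1) J} {i₁ : Fin (k + 1)} {N ρ K q : ℕ} {p : ℕ → ℕ → ℕ}
    {A : F.Ω → Prop} {d : Dts F} (hd : d.OK i₁ N ρ K p A) {R a w v : ℕ}
    (hR1 : 1 ≤ R) (ha : a ≤ ρ) (hw : w ≤ a) (hR : R ≤ p a w) (h1 : w * (J / N) ≤ v)
    (h2 : v ≤ a * (J / N)) (hvJ : v ≤ J) (hq : (a + 2) * (J / N) ≤ q * (J / N) + v) {ω : F.Ω}
    (hω : A ω) :
    |(lp F i₁ N K q d R a v ω).eval (F.tw v ω)| ≤ Cl k K / 2 ^ (J / N) := by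
  obtain ⟨u, hu⟩ : ∃ u, u = J / N := ⟨_, rfl⟩
  rw [← hu] at h1 h2 hq ⊢
  have hpos : ∀ n : ℕ, (0 : ℝ) < 2 ^ n := fun n => by positivity
  obtain ⟨t0, t1⟩ := tw_mem F hvJ ω
  -- the point of the box
  have hpb : ∀ j, |Pool.SLO.pb F i₁ ((a + 2) * u) v (q * u) ω j| ≤ 2 := by
    intro j
    unfold Pool.SLO.pb Pool.SLO.pnt
    split_ifs with hj
    · rw [abs_of_nonneg t0]
      linarith only [t1]
    · have b1 := Pool.SLO.yb_mem F i₁ ((a + 2) * u) v ω j
      have b2 := Pool.SLO.omb_mem F i₁ ((a + 2) * u) v (q * u) ω j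
      have b3 : (2 : ℝ) ^ ((a + 2) * u) / (2 ^ v * 2 ^ (q * u)) ≤ 1 := by
        rw [div_le_one (by positivity), ← pow_add]
        exact pow_le_pow_right₀ (by norm_num) (by omega)
      have b4 : 0 ≤ F.tw v ω * Pool.SLO.omb F i₁ ((a + 2) * u) v (q * u) ω j :=
        mul_nonneg t0 b2.1
      have b5 : F.tw v ω * Pool.SLO.omb F i₁ ((a + 2) * u) v (q * u) ω j ≤ 1 * 1 :=
        mul_le_mul t1 (b2.2.trans b3) b2.1 zero_le_one
      rw [abs_le]
      constructor <;> linarith [b1.1, b1.2]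
  set H := d.H a v (slam F v ω) with hH
  have hHd : (Pool.SLO.plb F i₁ ((a + 2) * u) v (q * u) ω H).totalDegree ≤ K :=
    (Pool.SLO.totalDegree_pull_le _ _ _ _ _ _).trans (hd.dH a v _)
  have e1 := abs_rdp_le2 (P := R * u) hHd hpb
  have e2 := hd.on a ha ω hω
  have e3 := hd.tb a ha w hw v (by rw [← hu]; exact h1) (by rw [← hu]; exact h2) ω hω
    (bp F i₁ ω) (fun j => by
      rw [sub_self, abs_zero]
      positivity)
  rw [← hu] at e2 e3
  have e4 : eval (Pool.SLO.pb F i₁ ((a + 2) * u) v (q * u) ω)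
      (Pool.SLO.plb F i₁ ((a + 2) * u) v (q * u) ω H) = eval (bp F i₁ ω) H := by
    unfold Pool.SLO.plb
    rw [Pool.SLO.eval_pull, Pool.SLO.sb_pb]
  rw [e4] at e1
  have m1 : p a w ≤ p a a := hd.mo a a w a le_rfl ha hw le_rfl
  have c1 : (1 : ℝ) / 2 ^ (p a a * u) ≤ 1 / 2 ^ (R * u) :=
    one_div_le_one_div_of_le (hpos _) (pow_le_pow_right₀ (by norm_num)
      (Nat.mul_le_mul_right _ (hR.trans m1)))
  have c2 : (1 : ℝ) / 2 ^ (p a w * u) ≤ 1 / 2 ^ (R * u) :=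
    one_div_le_one_div_of_le (hpos _) (pow_le_pow_right₀ (by norm_num)
      (Nat.mul_le_mul_right _ hR))
  have e5 : (lp F i₁ N K q d R a v ω).eval (F.tw v ω) = 2 ^ ((R - 1) * u) *
      (F.x ω i₁ - eval (Pool.SLO.pb F i₁ ((a + 2) * u) v (q * u) ω)
        (Pool.SLO.rdp K (R * u) (Pool.SLO.plb F i₁ ((a + 2) * u) v (q * u) ω H))) := by
    unfold Pool.SLF.lp Pool.SLO.cl Pool.SLO.lpl
    rw [← hu, Polynomial.eval_mul, Polynomial.eval_C, Polynomial.eval_sub,
      Pool.SLO.eval_npl, Pool.SLO.eval_lin]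
    rfl
  rw [e5, abs_mul, abs_of_pos (hpos _)]
  have e6 : |F.x ω i₁ - eval (Pool.SLO.pb F i₁ ((a + 2) * u) v (q * u) ω)
        (Pool.SLO.rdp K (R * u) (Pool.SLO.plb F i₁ ((a + 2) * u) v (q * u) ω H))| ≤
      Cl k K / 2 ^ (R * u) := by
    have e7 : F.x ω i₁ - eval (Pool.SLO.pb F i₁ ((a + 2) * u) v (q * u) ω)
        (Pool.SLO.rdp K (R * u) (Pool.SLO.plb F i₁ ((a + 2) * u) v (q * u) ω H)) =
      (F.x ω i₁ - eval (bp F i₁ ω) (own F N ρ d a ω)) +
      (eval (bp F i₁ ω) (own F N ρ d a ω) - eval (bp F i₁ ω) H) +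
      (eval (bp F i₁ ω) H - eval (Pool.SLO.pb F i₁ ((a + 2) * u) v (q * u) ω)
        (Pool.SLO.rdp K (R * u) (Pool.SLO.plb F i₁ ((a + 2) * u) v (q * u) ω H))) := by ring
    have e8 : Cl k K / 2 ^ (R * u) = 1 / 2 ^ (R * u) + 1 / 2 ^ (R * u) +
        (Pool.SLO.mons (k + 1) K).card * 2 ^ K / 2 ^ (R * u) := by
      unfold Cl
      ring
    rw [e7, e8]
    exact (abs_add_le _ _).trans (add_le_add ((abs_add_le _ _).trans
      (add_le_add (e2.trans c1) (e3.trans c2))) e1)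
  calc (2 : ℝ) ^ ((R - 1) * u) * _ ≤ 2 ^ ((R - 1) * u) * (Cl k K / 2 ^ (R * u)) :=
        mul_le_mul_of_nonneg_left e6 (hpos _).le
    _ = Cl k K / 2 ^ u := by
        have e9 : (2 : ℝ) ^ (R * u) = 2 ^ ((R - 1) * u) * 2 ^ u := by
          rw [← pow_add]
          congr 1
          obtain ⟨R', rfl⟩ := Nat.exists_eq_add_of_le hR1
          rw [Nat.add_sub_cancel_left]
          ring
        rw [e9]
        field_simp

/-- **The coefficients of the line polynomial** from separated samples. -/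
theorem lp_coeff {F : Fam (k + 1) J} {i₁ : Fin (k + 1)} {N ρ K q : ℕ} {p : ℕ → ℕ → ℕ}
    {A : F.Ω → Prop} {d : Dts F} (hd : d.OK i₁ N ρ K p A) (hK : 1 ≤ K) {R a w v : ℕ}
    (hR1 : 1 ≤ R) (ha : a ≤ ρ) (hw : w ≤ a) (hR : R ≤ p a w) (h1 : w * (J / N) ≤ v)
    (h2 : v ≤ a * (J / N)) (hvJ : v ≤ J) (hq : (a + 2) * (J / N) ≤ q * (J / N) + v) {k' : ℕ}
    (hk' : (K + 1) * 2 ^ ((k' + 1) * K) * Cl k K ≤ 2 ^ (J / N)) {ω : F.Ω}
    {s : Fin (K + 1) → F.Ω} (hs : ∀ i, A (s i)) (hsl : ∀ i, slam F v (s i) = slam F v ω)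
    (hsep : ∀ i j, i ≠ j → 1 / 2 ^ (v + k') ≤ |F.t (s i) - F.t (s j)|) (n : ℕ) :
    |(lp F i₁ N K q d R a v ω).coeff n| ≤ 1 := by
  have hpos : ∀ n : ℕ, (0 : ℝ) < 2 ^ n := fun n => by positivity
  have hlp : ∀ i, lp F i₁ N K q d R a v (s i) = lp F i₁ N K q d R a v ω := fun i =>
    Pool.SLO.cl_of_slam (hsl i)
  have hT : ∀ i, F.T1 v (s i) = F.T1 v ω := fun i => (Pool.SLO.of_slam (hsl i)).1
  set L := lp F i₁ N K q d R a v ω with hL
  set θ : Fin (K + 1) → ℝ := fun i => F.tw v (s i) with hθ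
  have hθ1 : ∀ i, |θ i| ≤ 1 := by
    intro i
    obtain ⟨t0, t1⟩ := tw_mem F hvJ (s i)
    rw [abs_of_nonneg t0]
    exact t1
  have hθs : ∀ i j, i ≠ j → (2 : ℝ) ^ (-(k' : ℤ)) ≤ |θ i - θ j| := by
    intro i j hij
    have h3 := hsep i j hij
    have h4 : θ i - θ j = 2 ^ v * (F.t (s i) - F.t (s j)) := by
      simp only [hθ]
      unfold Fam.tw
      rw [hT i, hT j]
      ring
    rw [h4, abs_mul, abs_of_pos (hpos v), zpow_neg, zpow_natCast]
    calc ((2 : ℝ) ^ k')⁻¹ = 2 ^ v * (1 / 2 ^ (v + k')) := by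
          rw [pow_add]
          field_simp
      _ ≤ _ := mul_le_mul_of_nonneg_left h3 (hpos v).le
  have hinj := Pool.M5.L48.sep_injective hθs
  have hdeg : L.natDegree ≤ K := Pool.SLO.natDegree_cl _ _ _ _ _ _ _ _ hK _ _
  rw [← Pool.M5.L48.lag_poly hinj L hdeg n]
  have hval : ∀ i, |L.eval (θ i)| ≤ Cl k K / 2 ^ (J / N) := by
    intro i
    have h5 := lp_small hd hR1 ha hw hR h1 h2 hvJ hq (hs i)
    rwa [hlp i] at h5
  refine (Pool.M5.L48.lag_le θ _ hθ1 hθs hval n).trans ?_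
  rw [mul_div_assoc']
  rw [div_le_one (hpos _)]
  exact_mod_cast hk'

theorem Pr_Pe {Ω : Type} [Fintype Ω] (p : Ω → ℝ) (E : Set Ω) :
    Pool.KAF.Pr p E = Pe p (fun ω => ω ∈ E) := by
  classical
  rw [Pool.KAF.Pr_eq, Pe_eq]

/-- **LIN**: the numbers of most lines are bounded. -/
theorem lin_thm (S : FCl (k + 1)) : LIN S := by
  classical
  intro c h₁ X K η hc hh hX hK hη N i₁ ρ R q a w hwa haρ hR1 hq hρ
  by_cases hN : N = 0
  · subst hN
    refine Clg.of one_pos 0 fun J _ F A _ _ _ p d hd hRp => ?_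
    exfalso
    have h1 := hd.le a w
    have h2 : (ρ : ℝ) ≤ 0 := by simpa using hρ
    have h3 : ρ = 0 := by
      have : (ρ : ℝ) = 0 := le_antisymm h2 (Nat.cast_nonneg _)
      exact_mod_cast this
    omega
  have hN0 : 0 < N := Nat.pos_of_ne_zero hN
  have hNr : (0 : ℝ) < N := by exact_mod_cast hN0
  have hlog : 0 < Real.log 2 := Real.log_pos (by norm_num)
  have hCl := Cl_pos k K
  -- the constants
  obtain ⟨D₀, hD₀⟩ := exists_nat_gt (1 / X)
  obtain ⟨D, hD⟩ : ∃ D, D = max D₀ (4 * K) := ⟨_, rfl⟩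
  have hD1 : 4 * K ≤ D := by rw [hD]; exact le_max_right _ _
  have hD2 : D₀ ≤ D := by rw [hD]; exact le_max_left _ _
  have hDpos : 0 < D := by omega
  have hDr : (0 : ℝ) < D := by exact_mod_cast hDpos
  have hDX : 1 ≤ X * D := by
    have h1 : 1 / X < D := lt_of_lt_of_le hD₀ (by exact_mod_cast hD2)
    rw [div_lt_iff₀ hX] at h1
    linarith only [h1]
  obtain ⟨k₁, hk₁⟩ : ∃ k₁ : ℕ, (4 * (K + 1)) ^ 2 ≤ 2 ^ k₁ :=
    ⟨(4 * (K + 1)) ^ 2, Nat.lt_two_pow_self.le⟩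
  obtain ⟨k₂, hk₂⟩ := pow_unbounded_of_one_lt ((K + 1) * 2 ^ K * Cl k K)
    (by norm_num : (1 : ℝ) < 2)
  set τ : ℝ := η * Real.log 2 / (48 * (N * D)) with hτ
  have hτ0 : 0 < τ := by positivity
  set J₁ : ℕ := N * (D * (k₁ + 1) + 2 * k₂ + 2) with hJ₁
  refine Clg.of hτ0 J₁ fun J hJ F A hS _ _ p d hd hRp v hv1 hv2 => ?_
  obtain ⟨hT, hA⟩ := hS
  have hA0 : 0 < Pe F.p A := lt_of_lt_of_le (Real.exp_pos _) hA
  have hq' : IsLaw (Qa F A) := isLaw_cond F.isLaw hA0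
  -- the time
  have htime : (J : ℝ) * Real.log 2 - 6 * (τ * J) ≤
      CH (Qa F A) F.T (fun ω => (F.l ω, F.Z ω)) := by
    have h1 := Pool.STPA.sub_Tm_of_reg (S.tr hT) (S.tm hT) (S.rb hT) hA0 hA
    unfold Fam.Tm at h1
    have h2 : CH (Pool.FLF.Fam.sub F A hA0).p (Pool.FLF.Fam.sub F A hA0).T
        (fun ω => ((Pool.FLF.Fam.sub F A hA0).l ω, (Pool.FLF.Fam.sub F A hA0).Z ω)) =
        CH (Qa F A) F.T (fun ω => (F.l ω, F.Z ω)) :=
      Pool.FLF.sub_marg.CH F.T (fun ω => (F.l ω, F.Z ω))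
    rw [h2] at h1
    linarith only [h1]
  -- the sizes
  obtain ⟨u, hu⟩ : ∃ u, u = J / N := ⟨_, rfl⟩
  have hu1 : D * (k₁ + 1) + 2 * k₂ + 2 ≤ u := by
    rw [hu, Nat.le_div_iff_mul_le hN0]
    rw [hJ₁] at hJ
    linarith only [hJ]
  have huJ : u * N ≤ J := by
    rw [hu]
    exact Nat.div_mul_le_self _ _
  have huJ' : J < (u + 1) * N := by
    rw [hu]
    have := Nat.lt_div_mul_add (a := J) hN0
    linarith only [this]
  obtain ⟨k', hk'⟩ : ∃ k', k' = u / D := ⟨_, rfl⟩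
  have hk'1 : k₁ + 1 ≤ k' := by
    rw [hk', Nat.le_div_iff_mul_le hDpos]
    nlinarith only [hu1]
  have hk'D : k' * D ≤ u := by
    rw [hk']
    exact Nat.div_mul_le_self _ _
  have hk'D' : u < (k' + 1) * D := by
    rw [hk']
    have := Nat.lt_div_mul_add (a := u) hDpos
    linarith only [this]
  have hur : (0 : ℝ) ≤ u := Nat.cast_nonneg _
  -- the window
  have hvk : v + k' ≤ J := by
    have g1 : (v : ℝ) ≤ ρ * u := by
      have : v ≤ ρ * u := hv2.trans (by rw [← hu]; exact Nat.mul_le_mul_right _ haρ)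
      exact_mod_cast this
    have g2 : (k' : ℝ) * D ≤ u := by exact_mod_cast hk'D
    have g3 : (u : ℝ) * N ≤ J := by exact_mod_cast huJ
    have g4 : (k' : ℝ) ≤ X * N * u := by
      have g5 : (k' : ℝ) * 1 ≤ k' * (X * D) := mul_le_mul_of_nonneg_left hDX (Nat.cast_nonneg _)
      have g6 : X * (k' * D) ≤ X * u := mul_le_mul_of_nonneg_left g2 hX.le
      have g7 : X * u * 1 ≤ X * u * N := mul_le_mul_of_nonneg_left (by exact_mod_cast hN0)
        (by positivity)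
      linarith only [g5, g6, g7]
    have g8 : (ρ : ℝ) * u + X * N * u ≤ N * u := by
      have := mul_le_mul_of_nonneg_right hρ hur
      linarith only [this]
    have g9 : ((v + k' : ℕ) : ℝ) ≤ J := by
      push_cast
      linarith only [g1, g3, g4, g8]
    exact_mod_cast g9
  have hvJ : v ≤ J := by omega
  have hqq : (a + 2) * (J / N) ≤ q * (J / N) + v := by
    rw [← hu] at hv1 ⊢
    have g1 : (a + 2) * u ≤ (w + q) * u := Nat.mul_le_mul_right _ (by omega)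
    have g2 : (w + q) * u = w * u + q * u := by ring
    omega
  have hcoef : (K + 1) * 2 ^ ((k' + 1) * K) * Cl k K ≤ (2 : ℝ) ^ (J / N) := by
    rw [← hu]
    have g1 : k' * K * 2 ≤ u := by
      have : k' * (4 * K) ≤ k' * D := Nat.mul_le_mul_left _ hD1
      nlinarith only [hk'D, this]
    have g2 : k₂ + k' * K ≤ u := by omega
    calc ((K : ℝ) + 1) * 2 ^ ((k' + 1) * K) * Cl k K =
          ((K + 1) * 2 ^ K * Cl k K) * 2 ^ (k' * K) := by
          have g3 : (k' + 1) * K = k' * K + K := by ring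
          rw [g3, pow_add]
          ring
      _ ≤ 2 ^ k₂ * 2 ^ (k' * K) := mul_le_mul_of_nonneg_right hk₂.le (by positivity)
      _ = 2 ^ (k₂ + k' * K) := by rw [pow_add]
      _ ≤ 2 ^ u := pow_le_pow_right₀ (by norm_num) g2
  -- separated samples
  have hfull := Pool.Agent.H25.M5.time_full htime hq' (w := v) (w' := v + k') (by omega) hvk
  rw [Nat.add_sub_cancel_left] at hfull
  have htms := tms_fam F hq' (fun _ => True) (n := K + 1) (k := k') (w := v) (by omega) hvk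
    (e := 6 * (τ * J)) (by positivity) hfull
    (hk₁.trans (Nat.pow_le_pow_right (by norm_num) (by omega)))
  have hz : Pe (Qa F A) (fun _ => ¬ True) = 0 := by
    rw [Pe_eq]
    simp
  rw [hz, mul_zero, zero_add] at htms
  have hbd : 2 * (6 * (τ * J)) / (k' * Real.log 2) ≤ η := by
    have hk'0 : (0 : ℝ) < k' := by exact_mod_cast (by omega : 0 < k')
    rw [div_le_iff₀ (by positivity)]
    have g1 : (J : ℝ) ≤ 4 * (N * D) * k' := by
      have g2 : J ≤ (u + 1) * N := huJ'.le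
      have g3 : u + 1 ≤ (k' + 1) * D := hk'D'
      have g4 : (k' + 1) * D ≤ 2 * k' * D := Nat.mul_le_mul_right _ (by omega)
      have g5 : J ≤ 2 * k' * D * N := g2.trans (Nat.mul_le_mul_right _ (g3.trans g4))
      have g6 : (J : ℝ) ≤ 2 * k' * D * N := by exact_mod_cast g5
      have g7 : (0 : ℝ) ≤ 2 * k' * D * N := by positivity
      linarith only [g6]
    have g8 : 12 * τ * J ≤ 12 * τ * (4 * (N * D) * k') :=
      mul_le_mul_of_nonneg_left g1 (by positivity)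
    have g9 : 12 * τ * (4 * (N * D) * k') = η * (k' * Real.log 2) := by
      rw [hτ]
      field_simp
      ring
    linarith only [g8, g9]
  refine le_trans ?_ (htms.trans hbd)
  rw [Pr_Pe]
  refine Pe_mono hq' fun ω hω hex => ?_
  obtain ⟨i, hi, hi'⟩ := hω
  obtain ⟨s, hs1, hs2⟩ := hex
  have h5 := lp_coeff hd hK hR1 haρ hwa hRp hv1 hv2 hvJ hqq (by exact_mod_cast hcoef)
    (ω := ω) (s := s) (fun i => ?_) (fun i => (hs1 i).2.2) hs2 (i + 1)
  · exact absurd h5 (not_le.mpr hi')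
  · have h6 := (hs1 i).2.1
    by_contra hno
    have h7 : Pool.Agent.H49.Ent.cond F.p A True (s i) = 0 := by
      unfold Pool.Agent.H49.Ent.cond
      rw [if_neg (by simpa using hno)]
    exact absurd h6 (by
      show ¬ 0 < Pool.Agent.H49.Ent.cond F.p A True (s i)
      rw [h7]
      exact lt_irrefl _)

end Pool.Agent.H39.SLO
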